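import Pool.Agent.W601.RP.Stm2

set_option autoImplicit false
open scoped Classical
open Filter Topology Pool.Agent.W601.RP

namespace Pool.Agent.W230.RP

theorem bidu : S_BA → S_BB → S_FINX → S_RED → S_BIDU := by
  intro hBA hBB hFINX hRED A hA χ ε hε hχ
  obtain ⟨t0, k0, hk0, hunit, hval⟩ := hBA A hA χ ε hε hχ
  have hbb := hBB A hA χ ε hε hχ t0 k0 hk0 hunit hval
  let ψ : ↥H →+ TT := AddMonoidHom.mk' (fun h => pr k0 (h : ℕ → TT))
    (fun a b => hRED.2.2.1 k0 (a : ℕ → TT) (b : ℕ → TT))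
  obtain ⟨k1, -, hk1⟩ := hFINX ((Finset.range t0).filter (fun t => t ∈ A)) (χ - ψ) (by
    intro h hh
    have h1 := hbb h (fun t ht ht0 => hh t (Finset.mem_filter.2 ⟨Finset.mem_range.2 ht0, ht⟩))
    rw [AddMonoidHom.sub_apply]
    exact sub_eq_zero.2 h1)
  refine ⟨k0 + k1, fun h => ?_⟩
  rw [hRED.2.1]
  have h2 := hk1 h
  rw [AddMonoidHom.sub_apply, sub_eq_iff_eq_add] at h2
  rw [h2, add_comm]
  rfl

end Pool.Agent.W230.RP
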